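import Mathlib

/-!
# Rotationally invariant Finsler metrics on the cylinder: pointwise facts
-/

set_option autoImplicit false

open MeasureTheory Set Filter Topology
open scoped ENNReal

namespace Pool.Agent.FRot

/-- The plane. -/
abbrev V2 := ℝ × ℝ

/-- Finsler metrics on the cylinder invariant under the rotations. -/
structure Rot (F : V2 × V2 → ℝ) : Prop where
  cont : Continuous F
  nonneg : ∀ z, 0 ≤ F z
  smooth : ContDiffOn ℝ ((⊤ : ℕ∞) : WithTop ℕ∞) F {z | z.2 ≠ 0}
  rot : ∀ (r θ θ' : ℝ) (v : V2), F ((r, θ), v) = F ((r, θ'), v)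
  hom : ∀ p v : V2, ∀ c : ℝ, 0 < c → F (p, c • v) = c * F (p, v)
  conv : ∀ p v w : V2, v ≠ 0 → w ≠ 0 →
    0 < fderiv ℝ (fderiv ℝ (fun u : V2 => F (p, u) ^ 2)) v w w

variable {F : V2 × V2 → ℝ}

/-- The vertical derivative of `F²`. -/
noncomputable def DD (F : V2 × V2 → ℝ) (p v : V2) : V2 →L[ℝ] ℝ :=
  fderiv ℝ (fun u : V2 => F (p, u) ^ 2) v

theorem Rot.contDiffAt (h : Rot F) {z : V2 × V2} (hz : z.2 ≠ 0) :
    ContDiffAt ℝ 2 (fun z => F z ^ 2) z := by
  have h1 : IsOpen {z : V2 × V2 | z.2 ≠ 0} := isOpen_ne.preimage continuous_snd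
  have h2 := (h.smooth.contDiffAt (h1.mem_nhds hz)).pow 2
  exact h2.of_le (WithTop.coe_le_coe.2 le_top)

theorem Rot.contDiffAt_vel (h : Rot F) {p v : V2} (hv : v ≠ 0) :
    ContDiffAt ℝ 2 (fun u : V2 => F (p, u) ^ 2) v := by
  have h1 := h.contDiffAt (z := (p, v)) hv
  exact h1.comp v (contDiffAt_const.prodMk contDiffAt_id)

theorem Rot.hasFDerivAt_vel (h : Rot F) {p v : V2} (hv : v ≠ 0) :
    HasFDerivAt (fun u : V2 => F (p, u) ^ 2) (DD F p v) v :=
  ((h.contDiffAt_vel hv).differentiableAt (by norm_num)).hasFDerivAt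

theorem Rot.differentiableAt_DD (h : Rot F) {p v : V2} (hv : v ≠ 0) :
    DifferentiableAt ℝ (DD F p) v := by
  have h1 := (h.contDiffAt_vel (p := p) hv).fderiv_right (m := 1) (by norm_num)
  exact h1.differentiableAt (by norm_num)

theorem hasDerivAt_line (x w : V2) (t : ℝ) : HasDerivAt (fun t : ℝ => x + t • w) w t := by
  have h1 : HasDerivAt (fun t : ℝ => t • w) ((1 : ℝ) • w) t := (hasDerivAt_id t).smul_const w
  rw [one_smul] at h1
  exact h1.const_add x

theorem Rot.line1 (h : Rot F) {p x w : V2} {t : ℝ} (ht : x + t • w ≠ 0) :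
    HasDerivAt (fun t : ℝ => F (p, x + t • w) ^ 2) (DD F p (x + t • w) w) t := by
  have h1 : HasFDerivAt (fun u : V2 => F (p, u) ^ 2) (DD F p (x + t • w)) (x + t • w) :=
    h.hasFDerivAt_vel ht
  have h2 := h1.comp_hasDerivAt t (hasDerivAt_line x w t)
  exact h2

theorem Rot.line2 (h : Rot F) {p x w : V2} {t : ℝ} (ht : x + t • w ≠ 0) :
    HasDerivAt (fun t : ℝ => DD F p (x + t • w) w) (fderiv ℝ (DD F p) (x + t • w) w w) t := by
  have h1 := (h.differentiableAt_DD (p := p) ht).hasFDerivAt.comp_hasDerivAt t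
    (hasDerivAt_line x w t)
  have h2 := h1.clm_apply (hasDerivAt_const t w)
  simpa using h2

/-- Euler's relation. -/
theorem Rot.euler (h : Rot F) {p v : V2} (hv : v ≠ 0) : DD F p v v = 2 * F (p, v) ^ 2 := by
  have h1 := h.line1 (p := p) (x := 0) (w := v) (t := 1) (by simpa using hv)
  rw [zero_add, one_smul] at h1
  have h2 : HasDerivAt (fun t : ℝ => t ^ 2 * F (p, v) ^ 2) (2 * F (p, v) ^ 2) 1 := by
    have := (hasDerivAt_pow 2 (1 : ℝ)).mul_const (F (p, v) ^ 2)
    simpa using this
  refine h1.unique (h2.congr_of_eventuallyEq ?_)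
  filter_upwards [lt_mem_nhds (show (0 : ℝ) < 1 by norm_num)] with t ht
  rw [zero_add, h.hom _ _ _ ht, mul_pow]

/-- `F` is positive off the zero section. -/
theorem Rot.pos (h : Rot F) {p v : V2} (hv : v ≠ 0) : 0 < F (p, v) := by
  rcases (h.nonneg (p, v)).eq_or_lt with h0 | h0
  · exfalso
    have h1 := h.line2 (p := p) (x := 0) (w := v) (t := 1) (by simpa using hv)
    rw [zero_add, one_smul] at h1
    have h2 : HasDerivAt (fun t : ℝ => DD F p (0 + t • v) v) 0 1 := by
      refine (hasDerivAt_const (1 : ℝ) (0 : ℝ)).congr_of_eventuallyEq ?_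
      filter_upwards [lt_mem_nhds (show (0 : ℝ) < 1 by norm_num)] with t ht
      have h3 := h.euler (p := p) (v := t • v) (smul_ne_zero ht.ne' hv)
      rw [h.hom _ _ _ ht, ← h0, mul_zero, map_smul, smul_eq_mul] at h3
      rw [zero_add]
      rcases mul_eq_zero.1 (h3.trans (by norm_num)) with h4 | h4
      · exact absurd h4 ht.ne'
      · exact h4
    have h3 := h1.unique h2
    have h4 := h.conv p v v hv hv
    exact absurd h3 h4.ne'
  · exact h0

/-- Convexity along lines avoiding the origin. -/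
theorem Rot.tangent (h : Rot F) {p x w : V2} (hx : ∀ t ∈ Icc (0 : ℝ) 1, x + t • w ≠ 0) :
    DD F p x w ≤ F (p, x + w) ^ 2 - F (p, x) ^ 2 := by
  rcases eq_or_ne w 0 with rfl | hw
  · simp
  have hc : ConvexOn ℝ (Icc (0 : ℝ) 1) (fun t : ℝ => F (p, x + t • w) ^ 2) := by
    refine convexOn_of_hasDerivWithinAt2_nonneg (convex_Icc _ _)
      (f' := fun t => DD F p (x + t • w) w)
      (f'' := fun t => fderiv ℝ (DD F p) (x + t • w) w w) ?_ ?_ ?_ ?_
    · intro t ht
      exact (h.line1 (hx t ht)).continuousAt.continuousWithinAt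
    · intro t ht
      exact (h.line1 (hx t (interior_subset ht))).hasDerivWithinAt
    · intro t ht
      exact (h.line2 (hx t (interior_subset ht))).hasDerivWithinAt
    · intro t ht
      exact (h.conv p _ w (hx t (interior_subset ht)) hw).le
  have h1 := h.line1 (p := p) (hx 0 (by simp))
  have h2 := hc.le_slope_of_hasDerivAt (by simp) (by simp) (show (0 : ℝ) < 1 by norm_num) h1
  rw [slope_def_field] at h2
  simpa using h2

/-- The fundamental inequality. -/
theorem Rot.fund (h : Rot F) {p u : V2} (hu : u ≠ 0) (v : V2) :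
    DD F p u v ≤ 2 * F (p, u) * F (p, v) := by
  rcases eq_or_ne v 0 with rfl | hv
  · rw [map_zero]
    have := h.nonneg (p, u)
    have := h.nonneg (p, (0 : V2))
    positivity
  have hFu := h.pos (p := p) hu
  have hFv := h.pos (p := p) hv
  obtain ⟨c, hc⟩ : ∃ c, c = F (p, u) / F (p, v) := ⟨_, rfl⟩
  have hc0 : 0 < c := by rw [hc]; positivity
  by_cases hex : ∃ t ∈ Icc (0 : ℝ) 1, u + t • (c • v - u) = 0
  · obtain ⟨t, ht, h0⟩ := hex
    have ht0 : 0 < t := by
      rcases ht.1.eq_or_lt with h1 | h1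
      · exfalso
        rw [← h1, zero_smul, add_zero] at h0
        exact hu h0
      · exact h1
    have h1 : (t * c) • v = -((1 - t) • u) := by
      have e : u + t • (c • v - u) = (1 - t) • u + (t * c) • v := by
        rw [smul_sub, sub_smul, one_smul, mul_smul]
        abel
      rw [e] at h0
      exact eq_neg_of_add_eq_zero_right h0
    have h2 := congrArg (DD F p u) h1
    rw [map_smul, map_neg, map_smul, h.euler hu, smul_eq_mul, smul_eq_mul] at h2
    have h3 : t * c * DD F p u v ≤ 0 := by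
      rw [h2]
      have := ht.2
      have : 0 ≤ (1 - t) * (2 * F (p, u) ^ 2) := by
        have : 0 ≤ 1 - t := by linarith
        positivity
      linarith
    have h4 : DD F p u v ≤ 0 := by
      by_contra hcon
      push Not at hcon
      have : 0 < t * c * DD F p u v := by positivity
      linarith
    refine h4.trans ?_
    positivity
  · push Not at hex
    have h1 := h.tangent (p := p) hex
    rw [add_sub_cancel, h.hom _ _ _ hc0, map_sub, map_smul, h.euler hu, smul_eq_mul] at h1
    have h2 : c * F (p, v) = F (p, u) := by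
      rw [hc]
      field_simp
    rw [h2] at h1
    have h3 : c * DD F p u v ≤ c * (2 * F (p, u) * F (p, v)) := by
      calc c * DD F p u v ≤ 2 * F (p, u) * F (p, u) := by nlinarith
        _ = 2 * F (p, u) * (c * F (p, v)) := by rw [h2]
        _ = _ := by ring
    exact le_of_mul_le_mul_left h3 hc0

end Pool.Agent.FRot
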