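import Pool.Agent.FRot.Geo

/-!
# Rotationally invariant Finsler metrics on the cylinder: the ends
-/

set_option autoImplicit false

open MeasureTheory Set Filter Topology
open scoped ENNReal

namespace Pool.Agent.FRot

variable {F : V2 × V2 → ℝ}

theorem Rot.zero (h : Rot F) (p : V2) : F (p, 0) = 0 := by
  have h1 := h.hom p 0 2 (by norm_num)
  rw [smul_zero] at h1
  linarith

/-- The smallest length of a vector with first component `σ`. -/
noncomputable def nu (F : V2 × V2 → ℝ) (σ r : ℝ) : ℝ := ⨅ w : ℝ, F ((r, 0), (σ, w))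

theorem Rot.nu_bdd (h : Rot F) (σ r : ℝ) : BddBelow (range fun w : ℝ => F ((r, 0), (σ, w))) :=
  ⟨0, by rintro _ ⟨w, rfl⟩; exact h.nonneg _⟩

theorem Rot.nu_le (h : Rot F) (σ r w : ℝ) : nu F σ r ≤ F ((r, 0), (σ, w)) :=
  ciInf_le (h.nu_bdd σ r) w

theorem Rot.nu_nonneg (h : Rot F) (σ r : ℝ) : 0 ≤ nu F σ r := le_ciInf fun w => h.nonneg _

theorem Rot.coercive (h : Rot F) (p : V2) : ∃ c : ℝ, 0 < c ∧ ∀ v : V2, c * ‖v‖ ≤ F (p, v) := by
  have hne : (Metric.sphere (0 : V2) 1).Nonempty := ⟨(1, 0), by simp⟩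
  have hcont : Continuous fun v : V2 => F (p, v) := h.cont.comp (by fun_prop)
  obtain ⟨u, hu, hmin⟩ := (isCompact_sphere (0 : V2) 1).exists_isMinOn hne hcont.continuousOn
  have hu0 : u ≠ 0 := by
    rintro rfl
    simp at hu
  refine ⟨F (p, u), h.pos hu0, fun v => ?_⟩
  rcases eq_or_ne v 0 with rfl | hv
  · rw [norm_zero, mul_zero]
    exact h.nonneg _
  · have hn : 0 < ‖v‖ := norm_pos_iff.2 hv
    have h1 : F (p, u) ≤ F (p, ‖v‖⁻¹ • v) := by
      apply hmin
      rw [mem_sphere_zero_iff_norm, norm_smul, norm_inv, norm_norm, inv_mul_cancel₀ hn.ne']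
    rw [h.hom _ _ _ (inv_pos.2 hn)] at h1
    calc F (p, u) * ‖v‖ ≤ ‖v‖⁻¹ * F (p, v) * ‖v‖ := mul_le_mul_of_nonneg_right h1 hn.le
      _ = F (p, v) := by field_simp

theorem Rot.exists_min (h : Rot F) {σ : ℝ} (hσ : σ ≠ 0) (r : ℝ) :
    ∃ w, DD F (r, 0) (σ, w) (0, 1) = 0 := by
  obtain ⟨c, hc, hcv⟩ := h.coercive (r, 0)
  have hcont : Continuous fun w : ℝ => F ((r, 0), (σ, w)) := h.cont.comp (by fun_prop)
  have hlim : Tendsto (fun w : ℝ => F ((r, 0), (σ, w))) (cocompact ℝ) atTop := by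
    refine tendsto_atTop_mono (f := fun w : ℝ => c * ‖w‖) (fun w => ?_)
      ((tendsto_norm_cocompact_atTop (E := ℝ)).const_mul_atTop hc)
    refine le_trans (mul_le_mul_of_nonneg_left ?_ hc.le) (hcv (σ, w))
    exact norm_snd_le (σ, w)
  obtain ⟨w, hw⟩ := hcont.exists_forall_le hlim
  refine ⟨w, ?_⟩
  have hne : ((σ, w) : V2) + (0 : ℝ) • ((0, 1) : V2) ≠ 0 := by
    intro h0
    have := congrArg Prod.fst h0
    simp at this
    exact hσ this
  have h1 := h.line1 (p := (r, 0)) hne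
  have h2 : IsLocalMin (fun t : ℝ => F ((r, 0), (σ, w) + t • ((0, 1) : V2)) ^ 2) 0 := by
    refine Eventually.of_forall fun t => ?_
    have e : ((σ, w) : V2) + t • ((0, 1) : V2) = (σ, w + t) := by ext <;> simp
    have e0 : ((σ, w) : V2) + (0 : ℝ) • ((0, 1) : V2) = (σ, w) := by ext <;> simp
    simp only [e, e0]
    exact pow_le_pow_left₀ (h.nonneg _) (hw (w + t)) 2
  have h3 := h2.hasDerivAt_eq_zero h1
  rwa [zero_smul, add_zero] at h3

/-- The length of a vector with zero angular momentum. -/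
theorem Rot.eq_of_crit (h : Rot F) {σ : ℝ} (hσ : σ = 1 ∨ σ = -1) {p v : V2}
    (hv : 0 < σ * v.1) (hcrit : DD F p v (0, 1) = 0) : F (p, v) = σ * v.1 * nu F σ p.1 := by
  have hσ2 : σ * σ = 1 := by rcases hσ with rfl | rfl <;> norm_num
  have hv1 : v.1 ≠ 0 := by
    intro h0
    rw [h0, mul_zero] at hv
    exact lt_irrefl _ hv
  have hrot : ∀ w : V2, F (p, w) = F ((p.1, 0), w) := fun w => h.rot p.1 p.2 0 w
  have hscale : ∀ w : ℝ, F (p, (v.1, σ * v.1 * w)) = σ * v.1 * F ((p.1, 0), (σ, w)) := by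
    intro w
    rw [hrot, ← h.hom _ _ _ hv]
    congr 2
    ext
    · simp only [Prod.smul_mk, smul_eq_mul]
      linear_combination (-v.1) * hσ2
    · simp only [Prod.smul_mk, smul_eq_mul]
  apply le_antisymm
  · rw [nu, Real.mul_iInf_of_nonneg hv.le]
    refine le_ciInf fun w => ?_
    rw [← hscale w]
    have hne : ∀ t ∈ Icc (0 : ℝ) 1, v + t • ((0, σ * v.1 * w - v.2) : V2) ≠ 0 := by
      intro t _ h0
      have := congrArg Prod.fst h0
      simp at this
      exact hv1 this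
    have h1 := h.tangent (p := p) hne
    have e : ((0, σ * v.1 * w - v.2) : V2) = (σ * v.1 * w - v.2) • ((0, 1) : V2) := by
      ext <;> simp
    have e2 : v + ((0, σ * v.1 * w - v.2) : V2) = (v.1, σ * v.1 * w) := by
      ext <;> simp
    rw [e2, e, map_smul, hcrit, smul_zero] at h1
    exact (pow_le_pow_iff_left₀ (h.nonneg _) (h.nonneg _) (by norm_num : (2 : ℕ) ≠ 0)).1
      (by linarith)
  · have h1 := h.nu_le σ p.1 (v.2 / (σ * v.1))
    have h2 := mul_le_mul_of_nonneg_left h1 hv.le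
    rw [← hscale] at h2
    have e : σ * v.1 * (v.2 / (σ * v.1)) = v.2 := mul_div_cancel₀ v.2 hv.ne'
    rw [e] at h2
    exact h2

theorem Rot.measurable_nu (h : Rot F) (σ : ℝ) : Measurable (nu F σ) := by
  have h1 : UpperSemicontinuous (nu F σ) := by
    unfold nu
    refine upperSemicontinuous_ciInf (fun r => h.nu_bdd σ r) fun w => ?_
    exact (h.cont.comp (by fun_prop)).upperSemicontinuous
  exact h1.measurable

/-- The ends are infinitely long. -/
theorem Rot.lintegral_nu (h : Rot F)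
    (hc : ∀ x v : V2, v ≠ 0 → ∃ γ : ℝ → V2, ContDiff ℝ 2 γ ∧ γ 0 = x ∧ deriv γ 0 = v ∧
      ∀ t, 0 < t → EL F γ t)
    {σ : ℝ} (hσ : σ = 1 ∨ σ = -1) (r₀ : ℝ) :
    ∫⁻ r in {r | 0 ≤ σ * (r - r₀)}, ENNReal.ofReal (nu F σ r) = ⊤ := by
  have hσ2 : σ * σ = 1 := by rcases hσ with rfl | rfl <;> norm_num
  have hσ0 : σ ≠ 0 := by rcases hσ with rfl | rfl <;> norm_num
  obtain ⟨w, hw⟩ := h.exists_min hσ0 r₀
  have hv0 : ((σ, w) : V2) ≠ 0 := by
    intro h0
    have := congrArg Prod.fst h0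
    exact hσ0 this
  obtain ⟨γ, hγ, hγ0, hγ1, hEL⟩ := hc (r₀, 0) (σ, w) hv0
  have hd : ContDiff ℝ 1 (deriv γ) := by
    have h2 : ContDiff ℝ (1 + 1) γ := by
      rw [one_add_one_eq_two]
      exact hγ
    exact (contDiff_succ_iff_deriv.1 h2).2.2
  have hcd : Continuous (deriv γ) := hd.continuous
  have hcz : Continuous fun s => (γ s, deriv γ s) := hγ.continuous.prodMk hcd
  -- energy
  have he0 : 0 < F (γ 0, deriv γ 0) ^ 2 := by
    rw [hγ0, hγ1]
    have := h.pos (p := (r₀, 0)) hv0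
    positivity
  have hne_of : ∀ t, 0 < F (γ t, deriv γ t) ^ 2 → deriv γ t ≠ 0 := by
    intro t ht h0
    rw [h0, h.zero] at ht
    norm_num at ht
  have he : ∀ t, 0 ≤ t → F (γ t, deriv γ t) ^ 2 = F (γ 0, deriv γ 0) ^ 2 := fun t ht =>
    const_of_pos (e := fun s => F (γ s, deriv γ s) ^ 2) ((h.cont.comp hcz).pow 2) he0
      (fun t ht hpos => (h.conserved hγ (hne_of t hpos) (hEL t ht)).1) ht
  have hne : ∀ t, 0 ≤ t → deriv γ t ≠ 0 := fun t ht => hne_of t (by rw [he t ht]; exact he0)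
  -- angular momentum
  have hmc : ∀ t, 0 ≤ t → ContinuousAt (fun s => DD F (γ s) (deriv γ s) (0, 1)) t := by
    intro t ht
    have h1 : ContinuousAt (fderiv ℝ (fun z => F z ^ 2)) (γ t, deriv γ t) :=
      ((h.contDiffAt (z := (γ t, deriv γ t)) (hne t ht)).fderiv_right (m := 1)
        (by norm_num)).continuousAt
    have h2 : ContinuousAt (fun s => ((fderiv ℝ (fun z => F z ^ 2) (γ s, deriv γ s)).comp
        (ContinuousLinearMap.inr ℝ V2 V2)) (0, 1)) t := by
      have h3 : ContinuousAt (fun s => fderiv ℝ (fun z => F z ^ 2) (γ s, deriv γ s)) t :=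
        ContinuousAt.comp (f := fun s => (γ s, deriv γ s)) h1 hcz.continuousAt
      exact (h3.clm_comp continuousAt_const).clm_apply continuousAt_const
    refine h2.congr ?_
    filter_upwards [hcd.continuousAt.eventually_ne (hne t ht)] with s hs
    rw [h.vel_eq hs]
  have hm : ∀ t, 0 ≤ t → DD F (γ t) (deriv γ t) (0, 1) = 0 := by
    intro t ht
    have hm0 : DD F (γ 0) (deriv γ 0) (0, 1) = 0 := by rw [hγ0, hγ1, hw]
    rcases ht.eq_or_lt with rfl | ht'
    · exact hm0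
    · obtain ⟨c, -, hc⟩ := exists_hasDerivAt_eq_slope
        (fun s => DD F (γ s) (deriv γ s) (0, 1)) (fun _ => 0) ht'
        (fun s hs => (hmc s hs.1).continuousWithinAt)
        (fun s hs => (h.conserved hγ (hne s hs.1.le) (hEL s hs.1)).2)
      rw [eq_comm, div_eq_zero_iff] at hc
      rcases hc with h1 | h1
      · rw [hm0, sub_zero] at h1
        exact h1
      · exact absurd h1 (by linarith)
  have hv1 : ∀ t, 0 ≤ t → (deriv γ t).1 ≠ 0 := by
    intro t ht h0
    have h1 := h.euler (p := γ t) (hne t ht)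
    have e : deriv γ t = (deriv γ t).2 • ((0, 1) : V2) := by
      ext
      · simp [h0]
      · simp
    have h2 : DD F (γ t) (deriv γ t) (deriv γ t) = 0 := by
      conv_lhs => arg 2; rw [e]
      rw [map_smul, hm t ht, smul_zero]
    rw [h2, he t ht] at h1
    linarith
  have hpos : ∀ t, 0 ≤ t → 0 < σ * (deriv γ t).1 := by
    intro t ht
    by_contra hcon
    push Not at hcon
    have hcf : ContinuousOn (fun s => σ * (deriv γ s).1) (Icc 0 t) :=
      (continuous_const.mul (continuous_fst.comp hcd)).continuousOn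
    have h0 : 0 ≤ σ * (deriv γ 0).1 := by
      rw [hγ1]
      simp only
      rw [hσ2]
      norm_num
    obtain ⟨s, hs, hs0⟩ := intermediate_value_Icc' ht hcf ⟨hcon, h0⟩
    have hs0' : σ * (deriv γ s).1 = 0 := hs0
    rcases mul_eq_zero.1 hs0' with h1 | h1
    · exact hσ0 h1
    · exact hv1 s hs.1 h1
  -- the first coordinate
  have hρ : ∀ t, HasDerivAt (fun s => (γ s).1) (deriv γ t).1 t := by
    intro t
    have hγt : HasDerivAt γ (deriv γ t) t :=
      (hγ.differentiable (by norm_num)).differentiableAt.hasDerivAt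
    exact hγt.fst
  have hmono : StrictMonoOn (fun s => σ * (γ s).1) (Ici 0) := by
    refine strictMonoOn_of_deriv_pos (convex_Ici 0)
      (fun s _ => ((hρ s).const_mul σ).continuousAt.continuousWithinAt) ?_
    intro s hs
    rw [((hρ s).const_mul σ).deriv]
    exact hpos s (interior_subset hs)
  have hinj : InjOn (fun s => (γ s).1) (Ici 0) := by
    intro s hs t ht hst
    have hst' : (γ s).1 = (γ t).1 := hst
    exact hmono.injOn hs ht (by simp only [hst'])
  have hsub : (fun s => (γ s).1) '' (Ici 0) ⊆ {r | 0 ≤ σ * (r - r₀)} := by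
    rintro _ ⟨s, hs, rfl⟩
    have h1 := hmono.monotoneOn (mem_Ici.2 le_rfl) hs hs
    simp only [hγ0] at h1
    show 0 ≤ σ * ((γ s).1 - r₀)
    linarith
  have hval : ∀ t ∈ Ici (0 : ℝ), ENNReal.ofReal |(deriv γ t).1| *
      ENNReal.ofReal (nu F σ (γ t).1) = ENNReal.ofReal (F (γ 0, deriv γ 0)) := by
    intro t ht
    have h1 := h.eq_of_crit hσ (hpos t ht) (hm t ht)
    have h2 : |(deriv γ t).1| = σ * (deriv γ t).1 := by
      have h3 : |σ * (deriv γ t).1| = |(deriv γ t).1| := by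
        rw [abs_mul]
        rcases hσ with rfl | rfl <;> simp
      rw [← h3, abs_of_pos (hpos t ht)]
    have h3 : F (γ t, deriv γ t) = F (γ 0, deriv γ 0) :=
      (pow_left_inj₀ (h.nonneg _) (h.nonneg _) (by norm_num : (2 : ℕ) ≠ 0)).1 (he t ht)
    rw [← ENNReal.ofReal_mul (abs_nonneg _), h2, ← h1, h3]
  rw [eq_top_iff]
  calc (⊤ : ℝ≥0∞) = ∫⁻ t in Ici (0 : ℝ), ENNReal.ofReal (F (γ 0, deriv γ 0)) := by
        rw [setLIntegral_const, Real.volume_Ici, ENNReal.mul_top]
        rw [Ne, ENNReal.ofReal_eq_zero, not_le, hγ0, hγ1]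
        exact h.pos hv0
    _ = ∫⁻ t in Ici (0 : ℝ), ENNReal.ofReal |(deriv γ t).1| * ENNReal.ofReal (nu F σ (γ t).1) :=
        (setLIntegral_congr_fun measurableSet_Ici fun t ht => (hval t ht)).symm
    _ = ∫⁻ r in (fun s => (γ s).1) '' (Ici 0), ENNReal.ofReal (nu F σ r) :=
        (lintegral_image_eq_lintegral_abs_deriv_mul measurableSet_Ici
          (fun t _ => (hρ t).hasDerivWithinAt) hinj (fun r => ENNReal.ofReal (nu F σ r))).symm
    _ ≤ _ := lintegral_mono_set hsub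

end Pool.Agent.FRot
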