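import Pool.Agent.FRot.Basic

/-!
# Rotationally invariant Finsler metrics on the cylinder: conservation laws
-/

set_option autoImplicit false

open MeasureTheory Set Filter Topology
open scoped ENNReal

namespace Pool.Agent.FRot

variable {F : V2 × V2 → ℝ}

/-- The Euler–Lagrange equation of `F²` at time `t`. -/
def EL (F : V2 × V2 → ℝ) (γ : ℝ → V2) (t : ℝ) : Prop :=
  deriv (fun s => fderiv ℝ (fun u : V2 => F (γ s, u) ^ 2) (deriv γ s)) t
    = fderiv ℝ (fun q : V2 => F (q, deriv γ t) ^ 2) (γ t)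

theorem Rot.vel_eq (h : Rot F) {p v : V2} (hv : v ≠ 0) :
    DD F p v = (fderiv ℝ (fun z => F z ^ 2) (p, v)).comp (ContinuousLinearMap.inr ℝ V2 V2) := by
  have h1 : HasFDerivAt (fun z => F z ^ 2) (fderiv ℝ (fun z => F z ^ 2) (p, v)) (p, v) :=
    ((h.contDiffAt (z := (p, v)) hv).differentiableAt (by norm_num)).hasFDerivAt
  have h2 := h1.comp v (hasFDerivAt_prodMk_right p v)
  exact h2.fderiv

theorem Rot.pos_eq (h : Rot F) {p v : V2} (hv : v ≠ 0) :
    fderiv ℝ (fun q : V2 => F (q, v) ^ 2) p =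
      (fderiv ℝ (fun z => F z ^ 2) (p, v)).comp (ContinuousLinearMap.inl ℝ V2 V2) := by
  have h1 : HasFDerivAt (fun z => F z ^ 2) (fderiv ℝ (fun z => F z ^ 2) (p, v)) (p, v) :=
    ((h.contDiffAt (z := (p, v)) hv).differentiableAt (by norm_num)).hasFDerivAt
  have h0 : HasFDerivAt (fun q : V2 => (q, v)) (ContinuousLinearMap.inl ℝ V2 V2) p :=
    hasFDerivAt_prodMk_left p v
  have h2 := h1.comp p h0
  exact h2.fderiv

theorem Rot.pos_rot (h : Rot F) {p v : V2} (hv : v ≠ 0) :
    fderiv ℝ (fun q : V2 => F (q, v) ^ 2) p (0, 1) = 0 := by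
  have h1 : HasFDerivAt (fun z => F z ^ 2) (fderiv ℝ (fun z => F z ^ 2) (p, v)) (p, v) :=
    ((h.contDiffAt (z := (p, v)) hv).differentiableAt (by norm_num)).hasFDerivAt
  have h0 : HasFDerivAt (fun q : V2 => (q, v)) (ContinuousLinearMap.inl ℝ V2 V2) p :=
    hasFDerivAt_prodMk_left p v
  have h2 : HasFDerivAt (fun q : V2 => F (q, v) ^ 2) (fderiv ℝ (fun q : V2 => F (q, v) ^ 2) p) p := by
    have h20 := (h1.comp p h0).differentiableAt
    exact h20.hasFDerivAt
  have h3 : HasDerivAt (fun t : ℝ => p + t • ((0, 1) : V2)) ((0, 1) : V2) 0 :=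
    hasDerivAt_line p (0, 1) 0
  have h4 : HasFDerivAt (fun q : V2 => F (q, v) ^ 2) (fderiv ℝ (fun q : V2 => F (q, v) ^ 2) p)
      (p + (0 : ℝ) • ((0, 1) : V2)) := by rwa [zero_smul, add_zero]
  have h5 := h4.comp_hasDerivAt (0 : ℝ) h3
  have h6 : HasDerivAt ((fun q : V2 => F (q, v) ^ 2) ∘ fun t : ℝ => p + t • ((0, 1) : V2)) 0 0 := by
    refine (hasDerivAt_const (0 : ℝ) (F (p, v) ^ 2)).congr_of_eventuallyEq
      (Eventually.of_forall fun t => ?_)
    have e : p + t • ((0, 1) : V2) = (p.1, p.2 + t) := by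
      ext <;> simp
    simp only [Function.comp_apply, e]
    rw [h.rot p.1 (p.2 + t) p.2 v]
  exact h5.unique h6

/-- Conservation of energy and of the angular momentum. -/
theorem Rot.conserved (h : Rot F) {γ : ℝ → V2} (hγ : ContDiff ℝ 2 γ) {t : ℝ}
    (hv : deriv γ t ≠ 0) (hEL : EL F γ t) :
    HasDerivAt (fun s => F (γ s, deriv γ s) ^ 2) 0 t ∧
      HasDerivAt (fun s => DD F (γ s) (deriv γ s) (0, 1)) 0 t := by
  have hγ1 : HasDerivAt γ (deriv γ t) t :=
    (hγ.differentiable (by norm_num)).differentiableAt.hasDerivAt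
  have hd : ContDiff ℝ 1 (deriv γ) := by
    have h2 : ContDiff ℝ (1 + 1) γ := by
      rw [one_add_one_eq_two]
      exact hγ
    exact (contDiff_succ_iff_deriv.1 h2).2.2
  have hγ2 : HasDerivAt (deriv γ) (deriv (deriv γ) t) t :=
    (hd.differentiable (by norm_num)).differentiableAt.hasDerivAt
  have hz : HasDerivAt (fun s => (γ s, deriv γ s)) (deriv γ t, deriv (deriv γ) t) t :=
    hγ1.prodMk hγ2
  obtain ⟨G, hG⟩ : ∃ G : V2 × V2 → ℝ, G = fun z => F z ^ 2 := ⟨_, rfl⟩
  have hGc : ContDiffAt ℝ 2 G (γ t, deriv γ t) := by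
    rw [hG]
    exact h.contDiffAt hv
  have hG1 : HasFDerivAt G (fderiv ℝ G (γ t, deriv γ t)) (γ t, deriv γ t) :=
    (hGc.differentiableAt (by norm_num)).hasFDerivAt
  have he : HasDerivAt (fun s => G (γ s, deriv γ s))
      (fderiv ℝ G (γ t, deriv γ t) (deriv γ t, deriv (deriv γ) t)) t :=
    hG1.comp_hasDerivAt t hz
  -- the momentum
  have hne : ∀ᶠ s in 𝓝 t, deriv γ s ≠ 0 :=
    hd.continuous.continuousAt.eventually_ne hv
  have hPd : DifferentiableAt ℝ (fun s => DD F (γ s) (deriv γ s)) t := by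
    have h1 : DifferentiableAt ℝ (fderiv ℝ G) (γ t, deriv γ t) :=
      (hGc.fderiv_right (m := 1) (by norm_num)).differentiableAt (by norm_num)
    have h2 : DifferentiableAt ℝ (fun s => (fderiv ℝ G (γ s, deriv γ s)).comp
        (ContinuousLinearMap.inr ℝ V2 V2)) t := by
      have h3 : DifferentiableAt ℝ (fun s => fderiv ℝ G (γ s, deriv γ s)) t :=
        h1.comp t hz.differentiableAt
      exact h3.clm_comp (differentiableAt_const _)
    refine h2.congr_of_eventuallyEq ?_
    filter_upwards [hne] with s hs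
    rw [h.vel_eq hs, hG]
  have hP := hPd.hasDerivAt
  have hP' : deriv (fun s => DD F (γ s) (deriv γ s)) t =
      fderiv ℝ (fun q : V2 => F (q, deriv γ t) ^ 2) (γ t) := hEL
  constructor
  · have h1 := hP.clm_apply hγ2
    have h2 : HasDerivAt (fun s => 2 * G (γ s, deriv γ s))
        (deriv (fun s => DD F (γ s) (deriv γ s)) t (deriv γ t) +
          DD F (γ t) (deriv γ t) (deriv (deriv γ) t)) t := by
      refine h1.congr_of_eventuallyEq ?_
      filter_upwards [hne] with s hs
      rw [h.euler hs, hG]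
    have h3 := h2.unique (he.const_mul 2)
    rw [hP', h.pos_eq hv, h.vel_eq hv, ← hG] at h3
    have h4 : fderiv ℝ G (γ t, deriv γ t) (deriv γ t, deriv (deriv γ) t) =
        fderiv ℝ G (γ t, deriv γ t) (deriv γ t, 0) +
          fderiv ℝ G (γ t, deriv γ t) (0, deriv (deriv γ) t) := by
      rw [← map_add]
      simp
    simp only [ContinuousLinearMap.comp_apply, ContinuousLinearMap.inl_apply,
      ContinuousLinearMap.inr_apply] at h3
    rw [← h4] at h3
    have h5 : fderiv ℝ G (γ t, deriv γ t) (deriv γ t, deriv (deriv γ) t) = 0 := by linarith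
    rw [h5] at he
    rw [hG] at he
    exact he
  · have h1 := hP.clm_apply (hasDerivAt_const t ((0, 1) : V2))
    rw [hP', h.pos_rot hv, map_zero, add_zero] at h1
    exact h1

/-- A function with derivative zero where it is positive is constant. -/
theorem const_of_pos {e : ℝ → ℝ} (he : Continuous e) (h0 : 0 < e 0)
    (hd : ∀ t, 0 < t → 0 < e t → HasDerivAt e 0 t) {t : ℝ} (ht : 0 ≤ t) : e t = e 0 := by
  have hcl : IsClosed ({s | e s = e 0} ∩ Icc 0 t) :=
    (isClosed_eq he continuous_const).inter isClosed_Icc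
  have hsub : Icc 0 t ⊆ {s | e s = e 0} := by
    refine hcl.Icc_subset_of_forall_mem_nhdsWithin rfl ?_
    rintro x ⟨hx, hx1, hx2⟩
    have hx' : e x = e 0 := hx
    have hpos : ∀ᶠ y in 𝓝 x, 0 < e y := he.continuousAt.eventually (lt_mem_nhds (by
      show 0 < e x
      rw [hx']
      exact h0))
    obtain ⟨δ, hδ, hball⟩ := Metric.eventually_nhds_iff_ball.1 hpos
    rw [mem_nhdsWithin_iff_exists_mem_nhds_inter]
    refine ⟨Metric.ball x δ, Metric.ball_mem_nhds x hδ, ?_⟩
    rintro y ⟨hy1, hy2⟩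
    have hy2' : x < y := hy2
    show e y = e 0
    rw [← hx']
    obtain ⟨c, -, hc⟩ := exists_hasDerivAt_eq_slope e (fun _ => 0) hy2' he.continuousOn (by
      intro z hz
      refine hd z (lt_of_le_of_lt hx1 hz.1) (hball z ?_)
      rw [Metric.mem_ball, Real.dist_eq, abs_lt] at hy1 ⊢
      constructor <;> linarith [hz.1, hz.2, hy1.2])
    have h1 : y - x ≠ 0 := by linarith
    rw [eq_comm, div_eq_zero_iff] at hc
    rcases hc with h2 | h2
    · linarith
    · exact absurd h2 h1
  exact hsub (right_mem_Icc.2 ht)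

end Pool.Agent.FRot
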