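import Pool.Agent.FRot.End

/-!
# Rotationally invariant Finsler metrics on the cylinder: the volume
-/

set_option autoImplicit false

open MeasureTheory Set Filter Topology
open scoped ENNReal

namespace Pool.Agent.FRot

variable {F : V2 × V2 → ℝ}

/-- The dual unit ball. -/
def KK (F : V2 × V2 → ℝ) (p : V2) : Set V2 :=
  {ξ | ∀ v : V2, F (p, v) ≤ 1 → ξ.1 * v.1 + ξ.2 * v.2 ≤ 1}

theorem convex_KK (F : V2 × V2 → ℝ) (p : V2) : Convex ℝ (KK F p) := by
  intro x hx y hy a b ha hb hab v hv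
  have h1 := hx v hv
  have h2 := hy v hv
  have e : (a • x + b • y).1 * v.1 + (a • x + b • y).2 * v.2 =
      a * (x.1 * v.1 + x.2 * v.2) + b * (y.1 * v.1 + y.2 * v.2) := by
    simp only [Prod.fst_add, Prod.snd_add, Prod.smul_fst, Prod.smul_snd, smul_eq_mul]
    ring
  rw [e]
  nlinarith

theorem zero_mem_KK (F : V2 × V2 → ℝ) (p : V2) : (0 : V2) ∈ KK F p := by
  intro v _
  simp

theorem volume_parallelogram {K : Set V2} (hK : Convex ℝ K) (h0 : (0 : V2) ∈ K) {a : ℝ}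
    (ha : ((a, 0) : V2) ∈ K) {z : V2} (hz : z ∈ K) :
    ENNReal.ofReal (|a * z.2| / 4) ≤ volume K := by
  set f : V2 →ₗ[ℝ] V2 := Matrix.toLin (Module.Basis.finTwoProd ℝ) (Module.Basis.finTwoProd ℝ)
    !![a, z.1; 0, z.2] with hf
  set S : Set V2 := Icc (0 : ℝ) (1 / 2) ×ˢ Icc (0 : ℝ) (1 / 2) with hS
  have hdet : LinearMap.det f = a * z.2 := by
    rw [hf, LinearMap.det_toLin, Matrix.det_fin_two_of]
    ring
  have hsub : f '' S ⊆ K := by
    rintro _ ⟨⟨s, t⟩, ⟨hs, ht⟩, rfl⟩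
    have hs1 : 0 ≤ s := hs.1
    have hs2 : s ≤ 1 / 2 := hs.2
    have ht1 : 0 ≤ t := ht.1
    have ht2 : t ≤ 1 / 2 := ht.2
    rw [hf, Matrix.toLin_finTwoProd_apply]
    have h1 : s • ((a, 0) : V2) + (1 - s) • (0 : V2) ∈ K :=
      hK ha h0 hs1 (by linarith) (by ring)
    have h2 : (2 * s) • ((a, 0) : V2) + (1 - 2 * s) • (0 : V2) ∈ K :=
      hK ha h0 (by linarith) (by linarith) (by ring)
    have h3 : (2 * t) • z + (1 - 2 * t) • (0 : V2) ∈ K :=
      hK hz h0 (by linarith) (by linarith) (by ring)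
    have h4 := hK h2 h3 (by norm_num : (0 : ℝ) ≤ 1 / 2) (by norm_num : (0 : ℝ) ≤ 1 / 2)
      (by norm_num)
    convert h4 using 1
    ext
    · simp
      ring
    · simp
      ring
  have hvol : volume S = ENNReal.ofReal (1 / 4) := by
    rw [hS, Measure.volume_eq_prod, Measure.prod_prod, Real.volume_Icc,
      ← ENNReal.ofReal_mul (by norm_num)]
    norm_num
  calc ENNReal.ofReal (|a * z.2| / 4) = ENNReal.ofReal |LinearMap.det f| * volume S := by
        rw [hvol, hdet, ← ENNReal.ofReal_mul (abs_nonneg _)]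
        congr 1
        ring
    _ = volume (f '' S) := (Measure.addHaar_image_linearMap volume f S).symm
    _ ≤ volume K := measure_mono hsub

theorem Rot.mem_KK (h : Rot F) {p ξ : V2} (hξ : ∀ v : V2, v ≠ 0 → ξ.1 * v.1 + ξ.2 * v.2 ≤ F (p, v)) :
    ξ ∈ KK F p := by
  intro v hv
  rcases eq_or_ne v 0 with rfl | h0
  · simp
  · exact (hξ v h0).trans hv

theorem Rot.nu_mem (h : Rot F) {σ : ℝ} (hσ : σ = 1 ∨ σ = -1) (p : V2) :
    ((σ * nu F σ p.1, 0) : V2) ∈ KK F p := by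
  have hσ2 : σ * σ = 1 := by rcases hσ with rfl | rfl <;> norm_num
  refine h.mem_KK fun v hv0 => ?_
  simp only [zero_mul, add_zero]
  rcases le_or_gt (σ * v.1) 0 with h1 | h1
  · have h2 := h.nu_nonneg σ p.1
    have h3 := h.nonneg (p, v)
    have e : σ * nu F σ p.1 * v.1 = (σ * v.1) * nu F σ p.1 := by ring
    rw [e]
    exact (mul_nonpos_of_nonpos_of_nonneg h1 h2).trans h3
  · have h2 := h.nu_le σ p.1 (v.2 / (σ * v.1))
    have h3 : F (p, v) = σ * v.1 * F ((p.1, 0), (σ, v.2 / (σ * v.1))) := by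
      rw [← h.hom _ _ _ h1]
      have e : (σ * v.1) • ((σ, v.2 / (σ * v.1)) : V2) = v := by
        ext
        · simp only [Prod.smul_mk, smul_eq_mul]
          linear_combination v.1 * hσ2
        · simp only [Prod.smul_mk, smul_eq_mul]
          exact mul_div_cancel₀ v.2 h1.ne'
      rw [e]
      exact h.rot p.1 p.2 0 v
    rw [h3]
    nlinarith

theorem Rot.zeta_mem (h : Rot F) {τ : ℝ} (hτ : τ = 1 ∨ τ = -1) (p : V2) :
    ∃ z ∈ KK F p, |z.2| = F ((p.1, 0), (0, τ)) := by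
  have hτ2 : τ * τ = 1 := by rcases hτ with rfl | rfl <;> norm_num
  have hτ0 : τ ≠ 0 := by rcases hτ with rfl | rfl <;> norm_num
  have hu : ((0, τ) : V2) ≠ 0 := by
    intro h0
    have := congrArg Prod.snd h0
    exact hτ0 this
  have hF := h.pos (p := p) hu
  refine ⟨((DD F p (0, τ) (1, 0)) / (2 * F (p, (0, τ))),
    (DD F p (0, τ) (0, 1)) / (2 * F (p, (0, τ)))), ?_, ?_⟩
  · refine h.mem_KK fun v hv0 => ?_
    have h1 := h.fund (p := p) hu v
    have e : DD F p (0, τ) v = DD F p (0, τ) (1, 0) * v.1 + DD F p (0, τ) (0, 1) * v.2 := by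
      have e1 : v = v.1 • ((1, 0) : V2) + v.2 • ((0, 1) : V2) := by
        ext <;> simp
      conv_lhs => rw [e1]
      rw [map_add, map_smul, map_smul, smul_eq_mul, smul_eq_mul]
      ring
    rw [e] at h1
    have e2 : DD F p (0, τ) (1, 0) / (2 * F (p, (0, τ))) * v.1 +
        DD F p (0, τ) (0, 1) / (2 * F (p, (0, τ))) * v.2 =
        (DD F p (0, τ) (1, 0) * v.1 + DD F p (0, τ) (0, 1) * v.2) / (2 * F (p, (0, τ))) := by
      ring
    simp only
    rw [e2, div_le_iff₀ (by positivity)]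
    linarith
  · have h1 := h.euler (p := p) hu
    have e : ((0, τ) : V2) = τ • ((0, 1) : V2) := by ext <;> simp
    have h2 : DD F p (0, τ) (0, τ) = τ * DD F p (0, τ) (0, 1) := by
      conv_lhs => arg 2; rw [e]
      rw [map_smul, smul_eq_mul]
    have h3 : DD F p (0, τ) (0, 1) = τ * (2 * F (p, (0, τ)) ^ 2) := by
      rw [← h1, h2, ← mul_assoc, hτ2, one_mul]
    simp only
    rw [h3]
    have h4 : τ * (2 * F (p, (0, τ)) ^ 2) / (2 * F (p, (0, τ))) = τ * F (p, (0, τ)) := by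
      field_simp
    have h5 : |τ| = 1 := by rcases hτ with rfl | rfl <;> simp
    rw [h4, abs_mul, h5, one_mul, abs_of_pos hF]
    exact h.rot p.1 p.2 0 _

/-- Lower bound of the volume of the dual unit ball. -/
theorem Rot.vol_lower (h : Rot F) {σ τ : ℝ} (hσ : σ = 1 ∨ σ = -1) (hτ : τ = 1 ∨ τ = -1) (p : V2) :
    ENNReal.ofReal (nu F σ p.1 * F ((p.1, 0), (0, τ)) / 4) ≤ volume (KK F p) := by
  obtain ⟨z, hz, hz2⟩ := h.zeta_mem hτ p
  have h1 := volume_parallelogram (convex_KK F p) (zero_mem_KK F p) (h.nu_mem hσ p) hz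
  have h5 : |σ| = 1 := by rcases hσ with rfl | rfl <;> simp
  rw [abs_mul, abs_mul, h5, one_mul, hz2, abs_of_nonneg (h.nu_nonneg σ p.1)] at h1
  exact h1

theorem Rot.differentiable_par (h : Rot F) {τ : ℝ} (hτ : τ ≠ 0) :
    Differentiable ℝ fun r : ℝ => F ((r, 0), (0, τ)) := by
  intro r
  have hu : ((0, τ) : V2) ≠ 0 := by
    intro h0
    exact hτ (congrArg Prod.snd h0)
  have h1 : IsOpen {z : V2 × V2 | z.2 ≠ 0} := isOpen_ne.preimage continuous_snd
  have h2 : ContDiffAt ℝ ((⊤ : ℕ∞) : WithTop ℕ∞) F ((r, 0), (0, τ)) :=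
    h.smooth.contDiffAt (h1.mem_nhds hu)
  have h3 : DifferentiableAt ℝ F ((r, 0), (0, τ)) := h2.differentiableAt (by simp)
  have h4 : DifferentiableAt ℝ (fun r : ℝ => (((r, 0), (0, τ)) : V2 × V2)) r := by fun_prop
  exact DifferentiableAt.comp r h3 h4

/-- If the length of the parallels is bounded below at the end, the volume is infinite. -/
theorem Rot.volume_infinite (h : Rot F)
    (hc : ∀ x v : V2, v ≠ 0 → ∃ γ : ℝ → V2, ContDiff ℝ 2 γ ∧ γ 0 = x ∧ deriv γ 0 = v ∧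
      ∀ t, 0 < t → EL F γ t)
    {σ τ : ℝ} (hσ : σ = 1 ∨ σ = -1) (hτ : τ = 1 ∨ τ = -1) {L₀ : ℝ} (hL : 0 < L₀)
    (hlow : ∀ r : ℝ, 0 ≤ σ * (r - 0) → L₀ ≤ F ((r, 0), (0, τ))) :
    ∫⁻ x in (univ : Set ℝ) ×ˢ Ico (0 : ℝ) (2 * Real.pi), volume (KK F x) = ⊤ := by
  set A : Set ℝ := {r | 0 ≤ σ * (r - 0)} with hA
  have hAm : MeasurableSet A := by
    rw [hA]
    exact measurableSet_le measurable_const (by fun_prop)
  have hpi := Real.pi_pos
  rw [eq_top_iff]
  calc (⊤ : ℝ≥0∞) = (∫⁻ r in A, ENNReal.ofReal (nu F σ r)) *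
        ∫⁻ _ in Ico (0 : ℝ) (2 * Real.pi), ENNReal.ofReal (L₀ / 4) := by
        rw [h.lintegral_nu hc hσ 0, setLIntegral_const, ENNReal.top_mul]
        rw [Real.volume_Ico]
        refine mul_ne_zero ?_ ?_
        · rw [Ne, ENNReal.ofReal_eq_zero, not_le]
          positivity
        · rw [Ne, ENNReal.ofReal_eq_zero, not_le]
          linarith
    _ = ∫⁻ x in A ×ˢ Ico (0 : ℝ) (2 * Real.pi),
          ENNReal.ofReal (nu F σ x.1) * ENNReal.ofReal (L₀ / 4) := by
        rw [Measure.volume_eq_prod, ← Measure.prod_restrict]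
        exact (lintegral_prod_mul (h.measurable_nu σ).ennreal_ofReal.aemeasurable
          aemeasurable_const).symm
    _ ≤ ∫⁻ x in A ×ˢ Ico (0 : ℝ) (2 * Real.pi), volume (KK F x) := by
        refine setLIntegral_mono' (hAm.prod measurableSet_Ico) fun x hx => ?_
        refine le_trans ?_ (h.vol_lower hσ hτ x)
        rw [← ENNReal.ofReal_mul (h.nu_nonneg _ _)]
        refine ENNReal.ofReal_le_ofReal ?_
        have h1 := hlow x.1 hx.1
        have h2 := h.nu_nonneg σ x.1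
        nlinarith
    _ ≤ _ := lintegral_mono_set (prod_mono_left (subset_univ _))

/-- The length of the parallels has a critical point. -/
theorem Rot.exists_critical (h : Rot F)
    (hc : ∀ x v : V2, v ≠ 0 → ∃ γ : ℝ → V2, ContDiff ℝ 2 γ ∧ γ 0 = x ∧ deriv γ 0 = v ∧
      ∀ t, 0 < t → EL F γ t)
    (hvol : ∫⁻ x in (univ : Set ℝ) ×ˢ Ico (0 : ℝ) (2 * Real.pi), volume (KK F x) < ⊤)
    {τ : ℝ} (hτ : τ = 1 ∨ τ = -1) :
    ∃ r : ℝ, HasDerivAt (fun r : ℝ => F ((r, 0), (0, τ))) 0 r := by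
  have hτ0 : τ ≠ 0 := by rcases hτ with rfl | rfl <;> norm_num
  have hu : ((0, τ) : V2) ≠ 0 := by
    intro h0
    exact hτ0 (congrArg Prod.snd h0)
  have hdiff := h.differentiable_par hτ0
  by_contra hcon
  push Not at hcon
  have hne : ∀ r ∈ (univ : Set ℝ), deriv (fun r : ℝ => F ((r, 0), (0, τ))) r ≠ 0 := by
    intro r _ h0
    have := (hdiff r).hasDerivAt
    rw [h0] at this
    exact hcon r this
  have hL : 0 < F (((0 : ℝ), 0), (0, τ)) := h.pos hu
  rcases hasDerivWithinAt_forall_lt_or_forall_gt_of_forall_ne convex_univ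
    (fun r _ => (hdiff r).hasDerivAt.hasDerivWithinAt) hne with h1 | h1
  · have hanti : StrictAnti fun r : ℝ => F ((r, 0), (0, τ)) :=
      strictAnti_of_deriv_neg fun r => h1 r (mem_univ r)
    refine hvol.ne (h.volume_infinite hc (Or.inr rfl) hτ hL fun r hr => ?_)
    exact hanti.antitone (by linarith)
  · have hmono : StrictMono fun r : ℝ => F ((r, 0), (0, τ)) :=
      strictMono_of_deriv_pos fun r => h1 r (mem_univ r)
    refine hvol.ne (h.volume_infinite hc (Or.inl rfl) hτ hL fun r hr => ?_)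
    exact hmono.monotone (by linarith)

/-- A parallel of critical length is a geodesic. -/
theorem Rot.parallel (h : Rot F) {τ : ℝ} (hτ : τ ≠ 0) {r : ℝ}
    (hr : HasDerivAt (fun r : ℝ => F ((r, 0), (0, τ))) 0 r) (t : ℝ) :
    EL F (fun t => (r, τ * t)) t := by
  have hu : ((0, τ) : V2) ≠ 0 := by
    intro h0
    exact hτ (congrArg Prod.snd h0)
  have hd : ∀ s : ℝ, deriv (fun t : ℝ => ((r, τ * t) : V2)) s = (0, τ) := by
    intro s
    have h1 : HasDerivAt (fun t : ℝ => ((r, τ * t) : V2)) (0, τ) s := by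
      refine HasDerivAt.prodMk (hasDerivAt_const s r) ?_
      simpa using (hasDerivAt_id s).const_mul τ
    exact h1.deriv
  unfold EL
  simp only [hd]
  have e1 : (fun s : ℝ => fderiv ℝ (fun u : V2 => F ((r, τ * s), u) ^ 2) (0, τ)) =
      fun _ => fderiv ℝ (fun u : V2 => F ((r, 0), u) ^ 2) (0, τ) := by
    funext s
    congr 1
    funext u
    rw [h.rot r (τ * s) 0 u]
  rw [e1, deriv_const]
  have e2 : (fun q : V2 => F (q, (0, τ)) ^ 2) = fun q : V2 => F ((q.1, 0), (0, τ)) ^ 2 := by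
    funext q
    rw [h.rot q.1 q.2 0]
  rw [e2]
  have h2 : HasFDerivAt (fun q : V2 => F ((q.1, 0), (0, τ))) (0 : V2 →L[ℝ] ℝ) (r, τ * t) := by
    have h3 : HasFDerivAt (fun q : V2 => q.1) (ContinuousLinearMap.fst ℝ ℝ ℝ) (r, τ * t) :=
      hasFDerivAt_fst
    have h4 := HasDerivAt.comp_hasFDerivAt (r, τ * t) (h₂ := fun r : ℝ => F ((r, 0), (0, τ))) hr h3
    rw [zero_smul] at h4
    exact h4
  have h5 := h2.pow 2
  simp only [smul_zero] at h5
  exact h5.fderiv.symm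

end Pool.Agent.FRot
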